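import Pool.Agent.Helper54.S4.Stmts

/-!
# BW4, BN4 : gates of both types in the wiring (MP_308581_lc)
-/

namespace Pool.Agent.Helper54.S4

open Finset Pool.Agent.Helper54.SP

theorem st_BW4 (h : Pool.Agent.Helper54.SP.ST_WMEM) : ST_BW4 := by
  intro K Q hQ
  have hL : 0 < Q.length := List.length_pos_iff.2 hQ
  obtain ⟨-, -, -, hm⟩ := h K Q
  refine ⟨⟨gH K Q.length (Q.getD 0 []) 0 0, ?_, rfl⟩, ⟨gG1 K Q.length (Q.getD 0 []) 0 0, ?_, rfl⟩⟩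
  · exact (hm _).2 ⟨0, hL, Or.inl ⟨0, by norm_num, Or.inl rfl⟩⟩
  · exact (hm _).2 ⟨0, hL, Or.inl ⟨0, by norm_num, Or.inr (Or.inr (Or.inl rfl))⟩⟩

theorem st_BN4 : ST_BN4 := by
  intro E h
  unfold bil stI at h
  simp at h

end Pool.Agent.Helper54.S4
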