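import Pool.Agent.Helper54.S4.Stmts

/-!
# COMP4 : completeness of the geometric part (MP_308581_lc)
-/

namespace Pool.Agent.Helper54.S4

open Finset Pool.Agent.Helper54.SP

theorem st_COMP4 (hVAL : ST_VAL4) (hSLK : ST_SLK4) (hSCL : ST_SCL) (hHST : ST_HST)
    (hAG : ST_AG4) (_hAL : ST_AL4) (hRB : ST_RB4) (hLV : ST_LV4) (hFANS : ST_FANS4)
    (hCOV : ST_COV4) (hLIFT : Pool.Agent.Helper54.SP.ST_LIFT)
    (hPOLY : Pool.Agent.Helper54.SP.ST_POLY) : ST_COMP4 := by
  intro Γ nw v hWF hN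
  obtain ⟨V, hV1, hV2⟩ := hVAL Γ nw v hWF hN
  obtain ⟨y, hy⟩ := hSLK Γ nw V hWF hV1 hV2
  obtain ⟨x, z, hS⟩ := hSCL Γ nw y hWF hy
  obtain ⟨z', hz', hq⟩ := hHST Γ nw y hWF hy x z hS
  have hA := hAG Γ nw x y z' hq
  obtain ⟨r1, r2, -⟩ := hRB Γ nw hWF
  obtain ⟨-, l2, l3, -⟩ := hLV Γ nw hWF
  have hNN : N4 Γ = 3 + 24 * Γ.length := rfl
  obtain ⟨h, hh, hA5⟩ := hLIFT 4 (N4 Γ + 1) (qv (N4 Γ) x y z') (ch4 Γ nw) (rb Γ nw) hA r1 r2
  refine hPOLY 4 (N4 Γ + 2) _ (ch5 Γ nw) (by norm_num) (by omega) hA5 ?_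
    (hCOV Γ nw (hFANS Γ nw hWF))
  intro i hi
  have hhi := hh i
  rw [Finset.sum_range_succ, Finset.sum_range_succ, Finset.sum_range_succ, Finset.sum_range_succ,
    Finset.sum_range_one]
  by_cases h1 : i < N4 Γ
  · have hzi := hz' i h1
    have hi1 : i < N4 Γ + 1 := by omega
    by_cases h0 : i = 0
    · subst h0
      simp [qv, pl, h1]
      linarith
    · by_cases h0' : i = 1
      · subst h0'
        have h00 : 0 < N4 Γ := by omega
        simp [qv, pl, h1, h00]
        linarith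
      · have hx : 0 ≤ x i := by
          by_cases h2 : i = 2
          · rw [h2, hS.x2]
          · have h3 := hS.xo 2 i le_rfl (by omega) (by omega)
            rw [hS.x2] at h3
            exact h3.le
        have hyi : 0 ≤ y i := by
          by_cases h2 : i = 2
          · rw [h2, hy.y2]
          · have h3 := hy.yo 2 i le_rfl (by omega) (by omega) h1
              (by rw [l3]; exact l2 i (by omega) h1)
            rw [hy.y2] at h3
            exact h3.le
        simp [qv, pl, h1, hi1, h0, h0']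
        linarith
  · by_cases h2 : i = N4 Γ
    · subst h2
      simp [qv]
      linarith
    · have h3 : i = N4 Γ + 1 := by omega
      subst h3
      simp

end Pool.Agent.Helper54.S4
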